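import Pool.Agent.H96S.KB.Prod

/-!
# The outer product of two blocks is a block
-/

set_option autoImplicit false

namespace Pool.Agent.H96S.KB

open MonoidAlgebra TensorProduct

variable {k : Type} [Field k]

section one

variable {G : Type} [Group G] [Finite G]

/-- the centre of the group algebra -/
noncomputable abbrev Z (k : Type) [Field k] (G : Type) [Group G] := Subalgebra.center k (MonoidAlgebra k G)

instance : Module.Finite k (MonoidAlgebra k G) :=
  Module.Finite.equiv (MonoidAlgebra.coeffLinearEquiv k :
    MonoidAlgebra k G ≃ₗ[k] (G →₀ k)).symm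

instance : IsArtinianRing (Z k G) := IsArtinianRing.of_finite k (Z k G)

theorem dich {R : Type} [CommRing R] [IsArtinianRing R] (e : R) (he : e * e = e)
    (hp : ∀ u : R, u * u = u → u * e = 0 ∨ u * e = e) (w : R) :
    IsNilpotent (w * e) ∨ ∃ b, w * b * e = e := by
  obtain ⟨n, y, hy⟩ := IsArtinian.exists_pow_succ_smul_dvd (w * e) (1 : R)
  simp only [smul_eq_mul, mul_one, Nat.succ_eq_add_one] at hy
  set v := w * e with hv
  have hve : v * e = v := by rw [hv, mul_assoc, he]
  have h1 : ∀ j : ℕ, v ^ n = v ^ (n + j) * y ^ j := by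
    intro j
    induction j with
    | zero => simp
    | succ j ih =>
      calc v ^ n = v ^ (n + j) * y ^ j := ih
        _ = v ^ n * v ^ j * y ^ j := by rw [pow_add]
        _ = (v ^ (n + 1) * y) * v ^ j * y ^ j := by rw [hy]
        _ = _ := by ring
  have h2 := h1 n
  have hu : (v ^ n * y ^ n) * (v ^ n * y ^ n) = v ^ n * y ^ n := by
    calc (v ^ n * y ^ n) * (v ^ n * y ^ n) = (v ^ (n + n) * y ^ n) * y ^ n := by ring
      _ = v ^ n * y ^ n := by rw [← h2]
  rcases hp _ hu with h | h
  · left
    refine ⟨n + 1, ?_⟩
    calc v ^ (n + 1) = (v ^ (n + n) * y ^ n) * v := by rw [← h2]; ring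
      _ = v ^ n * v * (v ^ n * y ^ n) := by ring
      _ = v ^ n * (v * e) * (v ^ n * y ^ n) := by rw [hve]
      _ = v ^ n * v * ((v ^ n * y ^ n) * e) := by ring
      _ = 0 := by rw [h, mul_zero]
  · right
    refine ⟨e * v ^ n * y * y ^ n, ?_⟩
    calc w * (e * v ^ n * y * y ^ n) * e = (v ^ (n + 1) * y) * y ^ n * e := by rw [hv]; ring
      _ = v ^ n * y ^ n * e := by rw [hy]
      _ = e := h

/-- in the algebra of a block over an algebraically closed field every element is the sum of a
constant and a nilpotent element -/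
theorem local_of [IsAlgClosed k] {R : Type} [CommRing R] [Algebra k R] [Module.Finite k R]
    (e : R) (he : e * e = e) (h0 : e ≠ 0)
    (hp : ∀ u : R, u * u = u → u * e = 0 ∨ u * e = e) (z : R) :
    ∃ c : k, IsNilpotent ((z - algebraMap k R c) * e) := by
  have : IsArtinianRing R := IsArtinianRing.of_finite k R
  by_contra hc
  push Not at hc
  have hb : ∀ c : k, ∃ b, (z - algebraMap k R c) * b * e = e := fun c =>
    (dich e he hp _).resolve_left (hc c)
  have hint : IsIntegral k z := Algebra.IsIntegral.isIntegral z
  have hs := (IsAlgClosed.splits (minpoly k z)).eq_prod_roots_of_monic (minpoly.monic hint)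
  have key : ∀ s : Multiset k, ∃ b,
      Polynomial.aeval z (s.map fun a => Polynomial.X - Polynomial.C a).prod * b * e = e := by
    intro s
    induction s using Multiset.induction_on with
    | empty => exact ⟨1, by simp⟩
    | cons a s ih =>
      obtain ⟨b, hb1⟩ := ih
      obtain ⟨b', hb2⟩ := hb a
      refine ⟨b * b', ?_⟩
      rw [Multiset.map_cons, Multiset.prod_cons, map_mul]
      simp only [map_sub, Polynomial.aeval_X, Polynomial.aeval_C]
      calc (z - algebraMap k R a) *
            (Polynomial.aeval z) (Multiset.map (fun a => Polynomial.X - Polynomial.C a) s).prod *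
              (b * b') * e
          = ((z - algebraMap k R a) * b') * ((Polynomial.aeval z) (Multiset.map
              (fun a => Polynomial.X - Polynomial.C a) s).prod * b * e) := by ring
        _ = (z - algebraMap k R a) * b' * e := by rw [hb1]
        _ = e := hb2
  obtain ⟨b, hb1⟩ := key (minpoly k z).roots
  rw [← hs, minpoly.aeval, zero_mul, zero_mul] at hb1
  exact h0 hb1.symm

theorem block_local [IsAlgClosed k] {e : MonoidAlgebra k G} (he : IsBlock e)
    (z : MonoidAlgebra k G) (hz : ∀ x, x * z = z * x) :
    ∃ c : k, IsNilpotent ((z - algebraMap k _ c) * e) := by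
  obtain ⟨h1, h2, h3, h4⟩ := he
  let e' : Z k G := ⟨e, by rw [Subalgebra.mem_center_iff]; exact h2⟩
  let z' : Z k G := ⟨z, by rw [Subalgebra.mem_center_iff]; exact hz⟩
  obtain ⟨c, n, hn⟩ := local_of (k := k) e' (Subtype.ext h1)
    (fun h => h3 (congrArg Subtype.val h))
    (fun u hu => by
      have hu1 : IsIdempotentElem (u : MonoidAlgebra k G) := congrArg Subtype.val hu
      have hu2 : ∀ x : MonoidAlgebra k G, x * u = u * x :=
        (Subalgebra.mem_center_iff.1 u.2)
      rcases h4 _ hu1 hu2 with h | h
      · left; exact Subtype.ext h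
      · right; exact Subtype.ext h) z'
  refine ⟨c, n, ?_⟩
  exact congrArg Subtype.val hn

end one

section abs

variable {R : Type} [CommRing R] [Algebra k R]

/-- constant modulo nilpotent elements, in the corner of `E` -/
def PP (E x : R) : Prop := ∃ c : k, IsNilpotent ((x - algebraMap k R c) * E)

theorem PP_zero (E : R) : PP (k := k) E 0 := ⟨0, by simp⟩

theorem PP_add {E x y : R} (hx : PP (k := k) E x) (hy : PP (k := k) E y) :
    PP (k := k) E (x + y) := by
  obtain ⟨c, hc⟩ := hx
  obtain ⟨d, hd⟩ := hy
  refine ⟨c + d, ?_⟩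
  have : (x + y - algebraMap k _ (c + d)) * E =
      (x - algebraMap k _ c) * E + (y - algebraMap k _ d) * E := by
    rw [map_add]; ring
  rw [this]
  exact (Commute.all _ _).isNilpotent_add hc hd

theorem PP_mul {E x y : R} (hx : PP (k := k) E x) (hy : PP (k := k) E y) :
    PP (k := k) E (x * y) := by
  obtain ⟨c, hc⟩ := hx
  obtain ⟨d, hd⟩ := hy
  refine ⟨c * d, ?_⟩
  have : (x * y - algebraMap k _ (c * d)) * E =
      y * ((x - algebraMap k _ c) * E) + algebraMap k _ c * ((y - algebraMap k _ d) * E) := by
    rw [map_mul]; ring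
  rw [this]
  exact (Commute.all _ _).isNilpotent_add ((Commute.all _ _).isNilpotent_mul_left hc)
    ((Commute.all _ _).isNilpotent_mul_left hd)

theorem nil_idem {u : R} (hu : u * u = u) (hn : IsNilpotent u) : u = 0 := by
  obtain ⟨r, hr⟩ := hn
  rcases Nat.eq_zero_or_pos r with h | h
  · subst h
    rw [pow_zero] at hr
    rw [← one_mul u, hr, zero_mul]
  · have hid : IsIdempotentElem u := hu
    rwa [hid.pow_eq h.ne'] at hr

theorem PP_idem {E F : R} (hE : E * E = E) (hF : F * F = F) (h : PP (k := k) E F) :
    F * E = 0 ∨ F * E = E := by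
  obtain ⟨c, hm⟩ := h
  by_cases hc : c = 1
  · right
    subst hc
    have hid : (E - F * E) * (E - F * E) = E - F * E := by
      calc (E - F * E) * (E - F * E)
          = E * E - 2 * (F * (E * E)) + (F * F) * (E * E) := by ring
        _ = E - F * E := by rw [hF, hE]; ring
    have hn : IsNilpotent (E - F * E) := by
      have : E - F * E = -((F - algebraMap k _ 1) * E) := by rw [map_one]; ring
      rw [this]
      exact hm.neg
    exact (sub_eq_zero.1 (nil_idem hid hn)).symm
  · left
    have hid : (F * E) * (F * E) = F * E := by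
      calc (F * E) * (F * E) = (F * F) * (E * E) := by ring
        _ = F * E := by rw [hF, hE]
    have h3 : ((F - algebraMap k _ c) * E) * (F * E) = algebraMap k _ (1 - c) * (F * E) := by
      calc ((F - algebraMap k _ c) * E) * (F * E)
          = (F * F) * (E * E) - algebraMap k _ c * (F * (E * E)) := by ring
        _ = algebraMap k _ (1 - c) * (F * E) := by rw [hF, hE, map_sub, map_one]; ring
    have hn : IsNilpotent (algebraMap k R (1 - c) * (F * E)) := by
      rw [← h3]
      exact (Commute.all _ _).isNilpotent_mul_right hm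
    have hn2 : IsNilpotent (F * E) := by
      have hc' : (1 - c) ≠ 0 := fun h => hc (sub_eq_zero.1 h).symm
      have : F * E = algebraMap k R (1 - c)⁻¹ * (algebraMap k R (1 - c) * (F * E)) := by
        rw [← mul_assoc, ← map_mul, inv_mul_cancel₀ hc', map_one, one_mul]
      rw [this]
      exact (Commute.all _ _).isNilpotent_mul_left hn
    exact nil_idem hid hn2

end abs

section two

variable {G H : Type} [Group G] [Group H] [Finite G] [Finite H]

/-- the image in the centre of `k[G × H]` -/
noncomputable def c1 (z : MonoidAlgebra k G) (hz : ∀ x, x * z = z * x) : Z k (G × H) :=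
  ⟨i1 z, by
    rw [Subalgebra.mem_center_iff]
    intro x
    have := central_outer hz (y := (1 : MonoidAlgebra k H)) (by simp) x
    simpa using this⟩

/-- the image in the centre of `k[G × H]` -/
noncomputable def c2 (y : MonoidAlgebra k H) (hy : ∀ x, x * y = y * x) : Z k (G × H) :=
  ⟨i2 y, by
    rw [Subalgebra.mem_center_iff]
    intro x
    have := central_outer (z := (1 : MonoidAlgebra k G)) (by simp) hy x
    simpa using this⟩

theorem block_prod [IsAlgClosed k] {e : MonoidAlgebra k G} {f : MonoidAlgebra k H}
    (he : IsBlock e) (hf : IsBlock f) :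
    IsBlock (i1 e * i2 f : MonoidAlgebra k (G × H)) := by
  classical
  have hcE : ∀ x : MonoidAlgebra k (G × H), x * (i1 e * i2 f) = i1 e * i2 f * x :=
    fun x => central_outer he.2.1 hf.2.1 x
  have hidE : (i1 e * i2 f : MonoidAlgebra k (G × H)) * (i1 e * i2 f) = i1 e * i2 f := by
    calc (i1 e * i2 f : MonoidAlgebra k (G × H)) * (i1 e * i2 f)
        = i1 e * (i2 f * i1 e) * i2 f := by simp only [mul_assoc]
      _ = i1 e * (i1 e * i2 f) * i2 f := by rw [comm12]
      _ = i1 (e * e) * i2 (f * f) := by simp only [map_mul, mul_assoc]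
      _ = _ := by rw [he.1, hf.1]
  refine ⟨hidE, hcE, ?_, ?_⟩
  · intro h
    apply he.2.2.1
    ext g
    obtain ⟨h0, hh0⟩ : ∃ h0, f.coeff h0 ≠ 0 := by
      by_contra hh
      push Not at hh
      exact hf.2.2.1 (by ext x; simpa using hh x)
    have := coeff12 e f g h0
    rw [h] at this
    simpa [hh0] using this.symm
  · intro F hF hFc
    let E : Z k (G × H) := ⟨i1 e * i2 f, by rw [Subalgebra.mem_center_iff]; exact hcE⟩
    let P : Z k (G × H) → Prop := fun x => PP (k := k) E x
    have hadd : ∀ x y, P x → P y → P (x + y) := fun x y hx hy => PP_add hx hy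
    have hmul : ∀ x y, P x → P y → P (x * y) := fun x y hx hy => PP_mul hx hy
    have h1 : ∀ z : MonoidAlgebra k G, ∀ hz : ∀ x, x * z = z * x, P (c1 z hz) := by
      intro z hz
      obtain ⟨c, n, hn⟩ := block_local he z hz
      refine ⟨c, n + 1, ?_⟩
      apply Subtype.ext
      have hx : ((i1 z - algebraMap k _ c) * (i1 e * i2 f) : MonoidAlgebra k (G × H)) =
          i1 ((z - algebraMap k _ c) * e) * i2 f := by
        rw [map_mul, map_sub, AlgHom.commutes, mul_assoc]
      have hcm : Commute (i1 ((z - algebraMap k _ c) * e) : MonoidAlgebra k (G × H)) (i2 f) :=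
        comm12 _ _
      have : (((i1 z - algebraMap k _ c) * (i1 e * i2 f) : MonoidAlgebra k (G × H))) ^ (n + 1) =
          0 := by
        rw [hx, hcm.mul_pow, ← map_pow, pow_succ, hn]
        simp
      exact this
    have h2 : ∀ y : MonoidAlgebra k H, ∀ hy : ∀ x, x * y = y * x, P (c2 y hy) := by
      intro y hy
      obtain ⟨c, n, hn⟩ := block_local hf y hy
      refine ⟨c, n + 1, ?_⟩
      apply Subtype.ext
      have hx : ((i2 y - algebraMap k _ c) * (i1 e * i2 f) : MonoidAlgebra k (G × H)) =
          i1 e * i2 ((y - algebraMap k _ c) * f) := by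
        rw [map_mul, map_sub, AlgHom.commutes, ← mul_assoc, ← mul_assoc]
        congr 1
        rw [sub_mul, mul_sub, comm12]
        congr 1
        exact (Algebra.commutes c _)
      have hcm : Commute (i1 e : MonoidAlgebra k (G × H)) (i2 ((y - algebraMap k _ c) * f)) :=
        comm12 _ _
      have : (((i2 y - algebraMap k _ c) * (i1 e * i2 f) : MonoidAlgebra k (G × H))) ^ (n + 1) =
          0 := by
        rw [hx, hcm.mul_pow, ← map_pow, ← map_pow, pow_succ (((y - algebraMap k _ c) * f)), hn]
        simp
      exact this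
    have hall : ∀ x : Z k (G × H), P x := by
      intro x
      obtain ⟨n, z, y, hz, hy, hsum⟩ := centre_span (x : MonoidAlgebra k (G × H))
        (Subalgebra.mem_center_iff.1 x.2)
      have hs : ∀ s : Finset (Fin n), ∃ w : Z k (G × H),
          (w : MonoidAlgebra k (G × H)) = ∑ j ∈ s, i1 (z j) * i2 (y j) ∧ P w := by
        intro s
        induction s using Finset.induction_on with
        | empty => exact ⟨0, by simp, PP_zero _⟩
        | insert a s ha ih =>
          obtain ⟨w, hw, hP⟩ := ih
          refine ⟨c1 (z a) (hz a) * c2 (y a) (hy a) + w, ?_,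
            hadd _ _ (hmul _ _ (h1 _ (hz a)) (h2 _ (hy a))) hP⟩
          rw [Finset.sum_insert ha, ← hw]
          rfl
      obtain ⟨w, hw, hP⟩ := hs Finset.univ
      have : w = x := Subtype.ext (hw.trans hsum.symm)
      rwa [← this]
    let F' : Z k (G × H) := ⟨F, by rw [Subalgebra.mem_center_iff]; exact hFc⟩
    have hF' : F' * F' = F' := Subtype.ext hF
    have hE' : E * E = E := Subtype.ext hidE
    have hgoal : F' * E = 0 ∨ F' * E = E := PP_idem hE' hF' (hall F')
    rcases hgoal with h | h
    · left; exact congrArg Subtype.val h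
    · right; exact congrArg Subtype.val h

end two

end Pool.Agent.H96S.KB
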