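import Pool.Agent.H96S.KB.Tr

/-!
# Powers of blocks
-/

set_option autoImplicit false

namespace Pool.Agent.H96S.KB

open MonoidAlgebra TensorProduct

variable {k : Type} [Field k]

/-- `D` is a defect group of `e` up to order: a subgroup of least order among those with `e` in the
image of the relative trace -/
def IsDefect {G : Type} [Group G] (D : Subgroup G) (e : MonoidAlgebra k G) : Prop :=
  IsTrace D e ∧ ∀ Q : Subgroup G, IsTrace Q e → Nat.card D ≤ Nat.card Q

theorem exists_defect {G : Type} [Group G] {D : Subgroup G} {e : MonoidAlgebra k G}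
    (h : IsTrace D e) : ∃ D' : Subgroup G, IsDefect D' e ∧ Nat.card D' ≤ Nat.card D := by
  classical
  have hex : ∃ n, ∃ Q : Subgroup G, IsTrace Q e ∧ Nat.card Q = n := ⟨_, D, h, rfl⟩
  obtain ⟨Q, hQ, hn⟩ := Nat.find_spec hex
  refine ⟨Q, ⟨hQ, fun R hR => ?_⟩, ?_⟩
  · rw [hn]; exact Nat.find_min' hex ⟨R, hR, rfl⟩
  · rw [hn]; exact Nat.find_min' hex ⟨D, h, rfl⟩

/-- the outer product `(g, h) ↦ e(g) f(h)` -/
noncomputable def outer {G H : Type} [Group G] [Group H] (e : MonoidAlgebra k G)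
    (f : MonoidAlgebra k H) : MonoidAlgebra k (G × H) :=
  MonoidAlgebra.mapDomainAlgHom k k (MonoidHom.inl G H) e *
    MonoidAlgebra.mapDomainAlgHom k k (MonoidHom.inr G H) f

variable (Y : ∀ (G : Type) [Group G] [Finite G], MonoidAlgebra k G → Prop)

/-- the bound `k(B) ≤ |D|` for all blocks with the property `Y` -/
def Bound : Prop :=
  ∀ (G : Type) [Group G] [Finite G] (e : MonoidAlgebra k G), IsBlock e → Y G e →
    ∀ D : Subgroup G, IsDefect D e → kB e ≤ Nat.card D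

/-- the bound `k(B) ≤ C |D|^(1+ε)` for all blocks with the property `Y`, for every `ε > 0` -/
def Weak : Prop :=
  ∀ ε : ℝ, 0 < ε → ∃ C : ℝ, ∀ (G : Type) [Group G] [Finite G] (e : MonoidAlgebra k G), IsBlock e →
    Y G e → ∀ D : Subgroup G, IsDefect D e → (kB e : ℝ) ≤ C * (Nat.card D : ℝ) ^ (1 + ε)

/-- for some `δ > 0` there are blocks with the property `Y` with `k(B) ≥ |D|^(1+δ)` and with
`k(B)` arbitrarily large -/
def Far : Prop :=
  ∃ δ : ℝ, 0 < δ ∧ ∀ N : ℕ, ∃ (G : Type) (_ : Group G) (_ : Finite G) (e : MonoidAlgebra k G),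
    IsBlock e ∧ Y G e ∧ ∃ D : Subgroup G, IsDefect D e ∧ N ≤ kB e ∧
      (Nat.card D : ℝ) ^ (1 + δ) ≤ kB e

variable {Y}

theorem powers [IsAlgClosed k]
    (hY : ∀ (G : Type) [Group G] [Finite G] (e : MonoidAlgebra k G), Y G e → Y (G × G) (outer e e))
    (G : Type) [Group G] [Finite G] (e : MonoidAlgebra k G) (he : IsBlock e) (hYe : Y G e)
    (D : Subgroup G) (hD : IsTrace D e) (m : ℕ) :
    ∃ (G' : Type) (_ : Group G') (_ : Finite G') (e' : MonoidAlgebra k G') (D' : Subgroup G'),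
      IsBlock e' ∧ Y G' e' ∧ IsTrace D' e' ∧ Nat.card D' = Nat.card D ^ 2 ^ m ∧
        kB e ^ 2 ^ m ≤ kB e' := by
  induction m with
  | zero => exact ⟨G, _, ‹_›, e, D, he, hYe, hD, by simp, by simp⟩
  | succ m ih =>
    obtain ⟨G', _, _, e', D', h1, h2, h3, h4, h5⟩ := ih
    refine ⟨G' × G', inferInstance, inferInstance, outer e' e', D'.prod D', block_prod h1 h1,
      hY _ _ h2, trace_prod h3 h3, ?_, ?_⟩
    · rw [Nat.card_congr (Subgroup.prodEquiv D' D').toEquiv, Nat.card_prod, h4, pow_succ 2 m,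
        pow_mul, sq]
    · calc kB e ^ 2 ^ (m + 1) = kB e ^ 2 ^ m * kB e ^ 2 ^ m := by
            rw [pow_succ 2 m, pow_mul, sq]
        _ ≤ kB e' * kB e' := Nat.mul_le_mul h5 h5
        _ ≤ _ := kB_prod e' e'

theorem bound_or_far [IsAlgClosed k]
    (hY : ∀ (G : Type) [Group G] [Finite G] (e : MonoidAlgebra k G), Y G e → Y (G × G) (outer e e)) :
    Bound Y ∨ Far Y := by
  by_contra hcon
  push Not at hcon
  obtain ⟨hB, hF⟩ := hcon
  apply hF
  unfold Bound at hB
  push Not at hB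
  obtain ⟨G, _, _, e, he, hYe, D, hD, hlt⟩ := hB
  set d : ℕ := Nat.card D with hd
  have hd1 : 1 ≤ d := Nat.card_pos
  set t : ℕ := kB e with ht
  have ht2 : 2 ≤ t := by omega
  -- the exponent
  obtain ⟨δ, hδ, hle⟩ : ∃ δ : ℝ, 0 < δ ∧ (d : ℝ) ^ (1 + δ) ≤ t := by
    rcases Nat.eq_or_lt_of_le hd1 with h | h
    · refine ⟨1, one_pos, ?_⟩
      rw [← h]
      simp only [Nat.cast_one, Real.one_rpow]
      exact_mod_cast (by omega : 1 ≤ t)
    · have hld : 0 < Real.log d := Real.log_pos (by exact_mod_cast h)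
      refine ⟨Real.log t / Real.log d - 1, ?_, ?_⟩
      · rw [sub_pos, lt_div_iff₀ hld, one_mul]
        exact Real.log_lt_log (by exact_mod_cast hd1) (by exact_mod_cast hlt)
      · rw [add_sub_cancel, Real.rpow_def_of_pos (by exact_mod_cast hd1), mul_div_cancel₀ _ hld.ne',
          Real.exp_log (by exact_mod_cast (by omega : 0 < t))]
  refine ⟨δ, hδ, fun N => ?_⟩
  obtain ⟨G', _, _, e', D', h1, h2, h3, h4, h5⟩ := powers hY G e he hYe D hD.1 N
  obtain ⟨D'', h6, h7⟩ := exists_defect h3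
  refine ⟨G', inferInstance, inferInstance, e', h1, h2, D'', h6, ?_, ?_⟩
  · calc N ≤ 2 ^ 2 ^ N := (Nat.lt_pow_self (by norm_num)).le.trans
            (Nat.pow_le_pow_right (by norm_num) (Nat.lt_pow_self (by norm_num)).le)
      _ ≤ t ^ 2 ^ N := Nat.pow_le_pow_left ht2 _
      _ ≤ kB e' := h5
  · calc (Nat.card D'' : ℝ) ^ (1 + δ) ≤ ((d ^ 2 ^ N : ℕ) : ℝ) ^ (1 + δ) := by
          apply Real.rpow_le_rpow (Nat.cast_nonneg _) _ (by linarith)
          exact_mod_cast (h7.trans h4.le)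
      _ = ((d : ℝ) ^ (1 + δ)) ^ (2 ^ N : ℕ) := by
          rw [Nat.cast_pow, ← Real.rpow_natCast, ← Real.rpow_natCast, ← Real.rpow_mul (by positivity),
            ← Real.rpow_mul (by positivity), mul_comm]
      _ ≤ (t : ℝ) ^ (2 ^ N : ℕ) := pow_le_pow_left₀ (by positivity) hle _
      _ ≤ kB e' := by exact_mod_cast h5

theorem not_weak_of_far (h : Far Y) : ¬ Weak Y := by
  intro hW
  obtain ⟨δ, hδ, hN⟩ := h
  obtain ⟨C, hC⟩ := hW (δ / 2) (by linarith)
  set θ : ℝ := (1 + δ / 2) / (1 + δ) with hθ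
  have hθ1 : θ < 1 := by rw [hθ, div_lt_one (by linarith)]; linarith
  have hlim := (tendsto_rpow_atTop (sub_pos.2 hθ1)).comp tendsto_natCast_atTop_atTop
  obtain ⟨N, hN1⟩ := ((hlim.eventually_gt_atTop C).and (Filter.eventually_ge_atTop 1)).exists
  obtain ⟨G, _, _, e, h1, h2, D, h3, h4, h5⟩ := hN N
  have h6 := hC G e h1 h2 D h3
  have hd : (1 : ℝ) ≤ Nat.card D := by
    have : 1 ≤ Nat.card D := Nat.card_pos
    exact_mod_cast this
  have htN : (N : ℝ) ≤ kB e := by exact_mod_cast h4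
  have ht : (1 : ℝ) ≤ kB e := le_trans (by exact_mod_cast hN1.2) htN
  have h7 : (Nat.card D : ℝ) ^ (1 + δ / 2) ≤ (kB e : ℝ) ^ θ := by
    calc (Nat.card D : ℝ) ^ (1 + δ / 2) = ((Nat.card D : ℝ) ^ (1 + δ)) ^ θ := by
          rw [← Real.rpow_mul (by linarith), hθ, mul_div_cancel₀ _ (by linarith)]
      _ ≤ _ := Real.rpow_le_rpow (by positivity) h5 (by rw [hθ]; positivity)
  have hC0 : 0 ≤ C := by
    by_contra hneg
    push Not at hneg
    have : C * (Nat.card D : ℝ) ^ (1 + δ / 2) < 0 := mul_neg_of_neg_of_pos hneg (by positivity)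
    linarith
  have h8 : (kB e : ℝ) ≤ C * (kB e : ℝ) ^ θ := h6.trans (mul_le_mul_of_nonneg_left h7 hC0)
  have h9 : (kB e : ℝ) ^ (1 - θ) ≤ C := by
    rw [Real.rpow_sub (by linarith), Real.rpow_one, div_le_iff₀ (by positivity)]
    exact h8
  have h10 : (N : ℝ) ^ (1 - θ) ≤ (kB e : ℝ) ^ (1 - θ) :=
    Real.rpow_le_rpow (Nat.cast_nonneg _) htN (by linarith)
  have h11 : C < (N : ℝ) ^ (1 - θ) := hN1.1
  linarith

theorem weak_of_bound (h : Bound Y) : Weak Y := by
  intro ε hε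
  refine ⟨1, fun G _ _ e h1 h2 D h3 => ?_⟩
  have h4 := h G e h1 h2 D h3
  have hd : (1 : ℝ) ≤ Nat.card D := by
    have : 1 ≤ Nat.card D := Nat.card_pos
    exact_mod_cast this
  rw [one_mul]
  calc (kB e : ℝ) ≤ (Nat.card D : ℝ) ^ (1 : ℝ) := by rw [Real.rpow_one]; exact_mod_cast h4
    _ ≤ _ := Real.rpow_le_rpow_of_exponent_le hd (by linarith)

/-- the augmentation of the idempotent is not zero: `B` is the principal block -/
def IsPrincipal (G : Type) [Group G] [Finite G] (e : MonoidAlgebra k G) : Prop :=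
  (e.coeff.sum fun _ r => r) ≠ 0

theorem principal_outer (G : Type) [Group G] [Finite G] (e : MonoidAlgebra k G)
    (h : IsPrincipal G e) : IsPrincipal (G × G) (outer e e) := by
  classical
  unfold IsPrincipal at *
  have := Fintype.ofFinite G
  rw [Finsupp.sum_fintype _ _ (fun _ => rfl)] at h ⊢
  have h1 : ∀ p : G × G, (outer e e).coeff p = e.coeff p.1 * e.coeff p.2 := fun p =>
    coeff12 e e p.1 p.2
  simp only [h1]
  rw [Fintype.sum_prod_type, ← Finset.sum_mul_sum]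
  exact mul_ne_zero h h

end Pool.Agent.H96S.KB
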