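import Mathlib

/-!
# Products of blocks

Blocks of group algebras as primitive central idempotents, relative traces, and the outer product of two
blocks.
-/

set_option autoImplicit false

namespace Pool.Agent.H96S.KB

open MonoidAlgebra TensorProduct

section defs

variable {k : Type} [Field k] {G : Type} [Group G]

/-- block idempotents: primitive idempotents of the centre of `kG` -/
def IsBlock (e : MonoidAlgebra k G) : Prop :=
  IsIdempotentElem e ∧ (∀ x : MonoidAlgebra k G, x * e = e * x) ∧ e ≠ 0 ∧
    ∀ f : MonoidAlgebra k G, IsIdempotentElem f →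
      (∀ x : MonoidAlgebra k G, x * f = f * x) → f * e = 0 ∨ f * e = e

/-- `e` is in the image of the relative trace `(kG)^D → Z(kG)` -/
def IsTrace (D : Subgroup G) (e : MonoidAlgebra k G) : Prop :=
  ∃ a : MonoidAlgebra k G,
    (∀ q ∈ D, MonoidAlgebra.of k G q * a = a * MonoidAlgebra.of k G q) ∧
    e = ∑ᶠ x : G ⧸ D, MonoidAlgebra.of k G (Quotient.out x) * a *
          MonoidAlgebra.of k G (Quotient.out x)⁻¹

/-- the dimension of `Z(kG) e` -/
noncomputable def kB (e : MonoidAlgebra k G) : ℕ :=
  Module.finrank k (Submodule.map (LinearMap.mulRight k e)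
    (Subalgebra.toSubmodule (Subalgebra.center k (MonoidAlgebra k G))))

end defs

section prod

variable {k : Type} [Field k] {G H : Type} [Group G] [Group H]

/-- the embedding of `kG` in `k[G × H]` -/
noncomputable def i1 : MonoidAlgebra k G →ₐ[k] MonoidAlgebra k (G × H) :=
  MonoidAlgebra.mapDomainAlgHom k k (MonoidHom.inl G H)

/-- the embedding of `kH` in `k[G × H]` -/
noncomputable def i2 : MonoidAlgebra k H →ₐ[k] MonoidAlgebra k (G × H) :=
  MonoidAlgebra.mapDomainAlgHom k k (MonoidHom.inr G H)

theorem i1_single (g : G) (r : k) : (i1 (single g r) : MonoidAlgebra k (G × H)) = single (g, 1) r := by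
  simp [i1]

theorem i2_single (h : H) (r : k) : (i2 (single h r) : MonoidAlgebra k (G × H)) = single (1, h) r := by
  simp [i2]

theorem comm12 (a : MonoidAlgebra k G) (b : MonoidAlgebra k H) :
    (i1 a : MonoidAlgebra k (G × H)) * i2 b = i2 b * i1 a := by
  induction a using MonoidAlgebra.induction_linear with
  | zero => simp
  | add x y hx hy => rw [map_add, add_mul, mul_add, hx, hy]
  | single g r =>
    induction b using MonoidAlgebra.induction_linear with
    | zero => simp
    | add x y hx hy => rw [map_add, add_mul, mul_add, hx, hy]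
    | single h s =>
      rw [i1_single, i2_single, single_mul_single, single_mul_single]
      simp [mul_comm]

theorem coeff12 (a : MonoidAlgebra k G) (b : MonoidAlgebra k H) (g : G) (h : H) :
    ((i1 a : MonoidAlgebra k (G × H)) * i2 b).coeff (g, h) = a.coeff g * b.coeff h := by
  classical
  induction a using MonoidAlgebra.induction_linear with
  | zero => simp
  | add x y hx hy => rw [map_add, add_mul, coeff_add, coeff_add, Finsupp.add_apply, hx, hy,
      Finsupp.add_apply, add_mul]
  | single g' r =>
    induction b using MonoidAlgebra.induction_linear with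
    | zero => simp
    | add x y hx hy => rw [map_add, mul_add, coeff_add, coeff_add, Finsupp.add_apply, hx, hy,
        Finsupp.add_apply, mul_add]
    | single h' s =>
      rw [i1_single, i2_single, single_mul_single]
      simp only [mul_one, one_mul, Prod.mk_mul_mk, coeff_single, Finsupp.single_apply, Prod.mk.injEq]
      by_cases h1 : g' = g
      · by_cases h2 : h' = h
        · simp [h1, h2]
        · simp [h1, h2]
      · simp [h1]

theorem single_pair (g : G) (h : H) (r : k) :
    (single (g, h) r : MonoidAlgebra k (G × H)) = r • (i1 (single g 1) * i2 (single h 1)) := by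
  rw [i1_single, i2_single, single_mul_single]
  simp

theorem central_outer {z : MonoidAlgebra k G} {y : MonoidAlgebra k H}
    (hz : ∀ x, x * z = z * x) (hy : ∀ x, x * y = y * x) (x : MonoidAlgebra k (G × H)) :
    x * (i1 z * i2 y) = i1 z * i2 y * x := by
  induction x using MonoidAlgebra.induction_linear with
  | zero => simp
  | add a b ha hb => rw [add_mul, mul_add, ha, hb]
  | single p r =>
    obtain ⟨g, h⟩ := p
    rw [single_pair, smul_mul_assoc, mul_smul_comm]
    congr 1
    calc (i1 (single g 1) * i2 (single h 1) : MonoidAlgebra k (G × H)) * (i1 z * i2 y)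
        = i1 (single g 1) * (i2 (single h 1) * i1 z) * i2 y := by simp only [mul_assoc]
      _ = i1 (single g 1) * (i1 z * i2 (single h 1)) * i2 y := by rw [comm12]
      _ = i1 (single g 1 * z) * i2 (single h 1 * y) := by simp only [map_mul, mul_assoc]
      _ = i1 (z * single g 1) * i2 (y * single h 1) := by rw [hz, hy]
      _ = i1 z * (i1 (single g 1) * i2 y) * i2 (single h 1) := by simp only [map_mul, mul_assoc]
      _ = i1 z * (i2 y * i1 (single g 1)) * i2 (single h 1) := by rw [comm12]
      _ = _ := by simp only [mul_assoc]

theorem central_iff (z : MonoidAlgebra k G) :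
    (∀ x, x * z = z * x) ↔ ∀ t g, z.coeff (t * g * t⁻¹) = z.coeff g := by
  constructor
  · intro hz t g
    have := congrArg (fun w : MonoidAlgebra k G => w.coeff (t * g)) (hz (single t 1))
    simp only [coeff_single_mul_apply, coeff_mul_single_apply, one_mul, mul_one] at this
    rw [← this]
    congr 1
    group
  · intro hz x
    induction x using MonoidAlgebra.induction_linear with
    | zero => simp
    | add a b ha hb => rw [add_mul, mul_add, ha, hb]
    | single t r =>
      ext h
      rw [coeff_single_mul_apply, coeff_mul_single_apply, mul_comm]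
      congr 1
      rw [← hz t (t⁻¹ * h)]
      congr 1
      group

end prod

section centre

variable {k : Type} [Field k] {G H : Type} [Group G] [Group H] [Finite G] [Finite H]

/-- the slice `x(·, h)` -/
noncomputable def slice (x : MonoidAlgebra k (G × H)) (h : H) : MonoidAlgebra k G :=
  .ofCoeff (Finsupp.equivFunOnFinite.symm fun g => x.coeff (g, h))

omit [Finite H] [Group G] [Group H] in
theorem slice_coeff (x : MonoidAlgebra k (G × H)) (h : H) (g : G) :
    (slice x h).coeff g = x.coeff (g, h) := by
  simp [slice]

/-- central elements of `k[G × H]` are sums of products of central elements -/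
theorem centre_span (x : MonoidAlgebra k (G × H)) (hx : ∀ y, y * x = x * y) :
    ∃ (n : ℕ) (z : Fin n → MonoidAlgebra k G) (y : Fin n → MonoidAlgebra k H),
      (∀ j w, w * z j = z j * w) ∧ (∀ j w, w * y j = y j * w) ∧ x = ∑ j, i1 (z j) * i2 (y j) := by
  classical
  have : Module.Finite k (MonoidAlgebra k G) :=
    Module.Finite.equiv (MonoidAlgebra.coeffLinearEquiv k :
      MonoidAlgebra k G ≃ₗ[k] (G →₀ k)).symm
  let V : Submodule k (MonoidAlgebra k G) := Subalgebra.toSubmodule (Subalgebra.center k _)
  have hV : ∀ w : MonoidAlgebra k G, w ∈ V ↔ ∀ y, y * w = w * y := by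
    intro w
    rw [Subalgebra.mem_toSubmodule, Subalgebra.mem_center_iff]
  let b := Module.finBasis k V
  have hcl := (central_iff x).1 hx
  have hs : ∀ h, slice x h ∈ V := by
    intro h
    rw [hV, central_iff]
    intro t g
    rw [slice_coeff, slice_coeff, ← hcl (t, 1) (g, h)]
    simp
  refine ⟨_, fun j => (b j : MonoidAlgebra k G),
    fun j => .ofCoeff (Finsupp.equivFunOnFinite.symm fun h => b.repr ⟨slice x h, hs h⟩ j), ?_, ?_, ?_⟩
  · intro j w
    exact (hV _).1 (b j).2 w
  · intro j
    rw [central_iff]
    intro t h
    have : (⟨slice x (t * h * t⁻¹), hs _⟩ : V) = ⟨slice x h, hs h⟩ := by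
      apply Subtype.ext
      ext g
      rw [slice_coeff, slice_coeff, ← hcl (1, t) (g, h)]
      simp
    simp [this]
  · ext p
    obtain ⟨g, h⟩ := p
    rw [coeff_sum, Finsupp.finsetSum_apply]
    simp only [coeff12]
    have h1 := b.sum_repr ⟨slice x h, hs h⟩
    have h2 := congrArg (fun w : V => (w : MonoidAlgebra k G).coeff g) h1
    simp only [slice_coeff] at h2
    rw [← h2, Submodule.coe_sum, coeff_sum, Finsupp.finsetSum_apply]
    refine Finset.sum_congr rfl fun j _ => ?_
    rw [Submodule.coe_smul, coeff_smul, Finsupp.smul_apply, smul_eq_mul, mul_comm]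
    rfl

end centre

end Pool.Agent.H96S.KB
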