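import Pool.Agent.H96S.KB.Blk

/-!
# Relative traces and dimensions for outer products
-/

set_option autoImplicit false

namespace Pool.Agent.H96S.KB

open MonoidAlgebra TensorProduct

variable {k : Type} [Field k]

section tr

variable {G H : Type} [Group G] [Group H]

theorem conj_indep {D : Subgroup G} {a : MonoidAlgebra k G}
    (ha : ∀ q ∈ D, MonoidAlgebra.of k G q * a = a * MonoidAlgebra.of k G q) (g g' : G)
    (h : g⁻¹ * g' ∈ D) :
    of k G g * a * of k G g⁻¹ = of k G g' * a * of k G g'⁻¹ := by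
  obtain ⟨d, rfl⟩ : ∃ d, g' = g * d := ⟨g⁻¹ * g', by group⟩
  have hd : d ∈ D := by simpa using h
  have h2 : (g * d)⁻¹ = d⁻¹ * g⁻¹ := by group
  rw [h2, map_mul (of k G) g d, map_mul (of k G) d⁻¹ g⁻¹,
    mul_assoc (of k G g) (of k G d) a, ha _ hd]
  simp only [mul_assoc]
  rw [← mul_assoc (of k G d), ← map_mul, mul_inv_cancel, map_one, one_mul]

/-- the cosets of `D × E` -/
noncomputable def cos (D : Subgroup G) (E : Subgroup H) (p : (G ⧸ D) × (H ⧸ E)) :
    (G × H) ⧸ D.prod E := QuotientGroup.mk (Quotient.out p.1, Quotient.out p.2)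

theorem cos_bij (D : Subgroup G) (E : Subgroup H) : Function.Bijective (cos D E) := by
  constructor
  · rintro ⟨x, y⟩ ⟨x', y'⟩ h
    unfold cos at h
    rw [QuotientGroup.eq] at h
    rw [Subgroup.mem_prod] at h
    simp only [Prod.inv_mk, Prod.mk_mul_mk] at h
    obtain ⟨h1, h2⟩ := h
    rw [← QuotientGroup.eq] at h1 h2
    refine Prod.ext ?_ ?_
    · simpa using h1
    · simpa using h2
  · intro q
    induction q using QuotientGroup.induction_on with
    | H p =>
      obtain ⟨g, h⟩ := p
      refine ⟨(QuotientGroup.mk g, QuotientGroup.mk h), ?_⟩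
      unfold cos
      rw [QuotientGroup.eq, Subgroup.mem_prod]
      simp only [Prod.inv_mk, Prod.mk_mul_mk]
      constructor
      · rw [← QuotientGroup.eq]; simp
      · rw [← QuotientGroup.eq]; simp

theorem of_pair (g : G) (h : H) : of k (G × H) (g, h) = i1 (of k G g) * i2 (of k H h) := by
  rw [of_apply, of_apply, of_apply, single_pair, one_smul]

theorem trace_prod [Finite G] [Finite H] {D : Subgroup G} {E : Subgroup H}
    {e : MonoidAlgebra k G} {f : MonoidAlgebra k H} (he : IsTrace D e) (hf : IsTrace E f) :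
    IsTrace (D.prod E) (i1 e * i2 f : MonoidAlgebra k (G × H)) := by
  classical
  obtain ⟨a, ha, hea⟩ := he
  obtain ⟨b, hb, hfb⟩ := hf
  have hab : ∀ q ∈ D.prod E, of k (G × H) q * (i1 a * i2 b) = i1 a * i2 b * of k (G × H) q := by
    rintro ⟨q, r⟩ hq
    rw [Subgroup.mem_prod] at hq
    rw [of_pair]
    calc (i1 (of k G q) * i2 (of k H r) : MonoidAlgebra k (G × H)) * (i1 a * i2 b)
        = i1 (of k G q) * (i2 (of k H r) * i1 a) * i2 b := by simp only [mul_assoc]
      _ = i1 (of k G q) * (i1 a * i2 (of k H r)) * i2 b := by rw [comm12]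
      _ = i1 (of k G q * a) * i2 (of k H r * b) := by simp only [map_mul, mul_assoc]
      _ = i1 (a * of k G q) * i2 (b * of k H r) := by rw [ha _ hq.1, hb _ hq.2]
      _ = i1 a * (i1 (of k G q) * i2 b) * i2 (of k H r) := by simp only [map_mul, mul_assoc]
      _ = i1 a * (i2 b * i1 (of k G q)) * i2 (of k H r) := by rw [comm12]
      _ = _ := by simp only [mul_assoc]
  refine ⟨i1 a * i2 b, hab, ?_⟩
  have := Fintype.ofFinite (G ⧸ D)
  have := Fintype.ofFinite (H ⧸ E)
  have := Fintype.ofFinite ((G × H) ⧸ D.prod E)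
  rw [finsum_eq_sum_of_fintype] at hea hfb ⊢
  rw [hea, hfb, map_sum, map_sum, Finset.sum_mul_sum, ← Finset.sum_product']
  rw [← (cos_bij D E).sum_comp]
  simp only [Finset.univ_product_univ]
  refine Finset.sum_congr rfl ?_
  rintro ⟨x, y⟩ -
  have h1 : (Quotient.out (cos D E (x, y)))⁻¹ * (Quotient.out x, Quotient.out y) ∈ D.prod E := by
    rw [← QuotientGroup.eq]
    simp [cos]
  rw [conj_indep hab _ _ h1]
  have h2 : (Quotient.out x, Quotient.out y)⁻¹ = ((Quotient.out x)⁻¹, (Quotient.out y)⁻¹) := rfl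
  rw [h2, of_pair, of_pair]
  simp only [map_mul]
  set A1 : MonoidAlgebra k (G × H) := i1 (of k G (Quotient.out x))
  set A2 : MonoidAlgebra k (G × H) := i1 (of k G (Quotient.out x)⁻¹)
  set B1 : MonoidAlgebra k (G × H) := i2 (of k H (Quotient.out y)) with hB1
  set B2 : MonoidAlgebra k (G × H) := i2 (of k H (Quotient.out y)⁻¹)
  have e1 : A2 * B1 = B1 * A2 := comm12 _ _
  have e2 : (i1 a : MonoidAlgebra k (G × H)) * B1 = B1 * i1 a := comm12 _ _
  have e3 : A2 * i2 b = i2 b * A2 := comm12 _ _
  calc A1 * i1 a * A2 * (B1 * i2 b * B2) = A1 * i1 a * (A2 * B1) * i2 b * B2 := by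
        simp only [mul_assoc]
    _ = A1 * (i1 a * B1) * (A2 * i2 b) * B2 := by rw [e1]; simp only [mul_assoc]
    _ = _ := by rw [e2, e3]; simp only [mul_assoc]

end tr

section dim

variable {G H : Type} [Group G] [Group H] [Finite G] [Finite H]

/-- `a ⊗ b ↦ i1 a * i2 b` -/
noncomputable def mm : MonoidAlgebra k G ⊗[k] MonoidAlgebra k H →ₗ[k] MonoidAlgebra k (G × H) :=
  TensorProduct.lift ((LinearMap.mul k (MonoidAlgebra k (G × H))).compl₁₂ i1.toLinearMap
    i2.toLinearMap)

omit [Finite G] [Finite H] in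
theorem mm_tmul (a : MonoidAlgebra k G) (b : MonoidAlgebra k H) :
    mm (a ⊗ₜ[k] b) = (i1 a * i2 b : MonoidAlgebra k (G × H)) := by
  simp [mm]

omit [Finite G] [Finite H] in
theorem mm_inj : Function.Injective (mm : MonoidAlgebra k G ⊗[k] MonoidAlgebra k H →ₗ[k]
    MonoidAlgebra k (G × H)) := by
  have : (mm : MonoidAlgebra k G ⊗[k] MonoidAlgebra k H →ₗ[k] MonoidAlgebra k (G × H)) =
      (MonoidAlgebra.tensorEquiv k).toLinearMap := by
    apply TensorProduct.ext'
    intro a b
    rw [mm_tmul]
    ext p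
    obtain ⟨g, h⟩ := p
    rw [coeff12]
    simp [MonoidAlgebra.tensorEquiv]
  rw [this]
  exact (MonoidAlgebra.tensorEquiv k).injective

theorem kB_prod (e : MonoidAlgebra k G) (f : MonoidAlgebra k H) :
    kB e * kB f ≤ kB (i1 e * i2 f : MonoidAlgebra k (G × H)) := by
  set V := Submodule.map (LinearMap.mulRight k e)
    (Subalgebra.toSubmodule (Subalgebra.center k (MonoidAlgebra k G))) with hV
  set W := Submodule.map (LinearMap.mulRight k f)
    (Subalgebra.toSubmodule (Subalgebra.center k (MonoidAlgebra k H))) with hW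
  set U := Submodule.map (LinearMap.mulRight k (i1 e * i2 f : MonoidAlgebra k (G × H)))
    (Subalgebra.toSubmodule (Subalgebra.center k (MonoidAlgebra k (G × H)))) with hU
  have h1 : kB e * kB f = Module.finrank k (V ⊗[k] W) := by
    rw [Module.finrank_tensorProduct]; rfl
  have hmem : ∀ t : V ⊗[k] W, mm (TensorProduct.map V.subtype W.subtype t) ∈ U := by
    intro t
    induction t using TensorProduct.induction_on with
    | zero => simp
    | add x y hx hy => rw [map_add, map_add]; exact U.add_mem hx hy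
    | tmul v w =>
      obtain ⟨v, hv⟩ := v
      obtain ⟨w, hw⟩ := w
      rw [hV, Submodule.mem_map] at hv
      rw [hW, Submodule.mem_map] at hw
      obtain ⟨z, hz, rfl⟩ := hv
      obtain ⟨y, hy, rfl⟩ := hw
      rw [Subalgebra.mem_toSubmodule, Subalgebra.mem_center_iff] at hz hy
      rw [TensorProduct.map_tmul, mm_tmul, hU, Submodule.mem_map]
      refine ⟨i1 z * i2 y, ?_, ?_⟩
      · rw [Subalgebra.mem_toSubmodule, Subalgebra.mem_center_iff]
        exact fun x => central_outer hz hy x
      · simp only [LinearMap.mulRight_apply, Submodule.subtype_apply, map_mul]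
        calc (i1 z * i2 y : MonoidAlgebra k (G × H)) * (i1 e * i2 f)
            = i1 z * (i2 y * i1 e) * i2 f := by simp only [mul_assoc]
          _ = i1 z * (i1 e * i2 y) * i2 f := by rw [comm12]
          _ = _ := by simp only [mul_assoc]
  let L : V ⊗[k] W →ₗ[k] U :=
    LinearMap.codRestrict U (mm ∘ₗ TensorProduct.map V.subtype W.subtype) hmem
  have hL : Function.Injective L := by
    intro s t hst
    have h2 := congrArg Subtype.val hst
    have h3 : mm (TensorProduct.map V.subtype W.subtype s) =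
      mm (TensorProduct.map V.subtype W.subtype t) := h2
    have h4 := mm_inj h3
    exact TensorProduct.map_injective_of_flat_flat _ _ V.injective_subtype W.injective_subtype h4
  rw [h1]
  exact LinearMap.finrank_le_finrank_of_injective hL

end dim

end Pool.Agent.H96S.KB
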